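import Pool.Agent.H79.StarAlg

/-!
# The complexity of `STAR_p`
-/

namespace Pool.Agent.Results.MP_77e9aa_lc.StarHardness

open Pool.Agent.H79.Star N68a2faeb N793a5b8e

/-- **Answer to Q1.**  For every non-integer real number `p > 1`: the problem `STAR_p` is NP-hard;
it is NP-complete exactly when the rational numbers below `p`, in unary code, form a language in
`NP`; in particular it is NP-complete for every algebraic `p` (for instance every rational `p`).
But it is NP-complete only for countably many `p`, so there is a non-integer real number `p > 1`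
for which `STAR_p` is not NP-complete (although it is NP-hard). -/
theorem result :
    (∀ p : ℝ, 1 < p → (∀ n : ℕ, p ≠ n) →
      (∀ L ∈ NP, ManyOneReducible L (STAR p)) ∧
      (IsCompleteFor NP (STAR p) ↔ Cut p ∈ NP) ∧
      (IsAlgebraic ℤ p → IsCompleteFor NP (STAR p))) ∧
    {p : ℝ | 1 < p ∧ IsCompleteFor NP (STAR p)}.Countable ∧
    ∃ p : ℝ, 1 < p ∧ (∀ n : ℕ, p ≠ n) ∧ ¬ IsCompleteFor NP (STAR p) := by
  have hc : {p : ℝ | 1 < p ∧ IsCompleteFor NP (STAR p)}.Countable :=
    countable_star.mono fun p (hp : 1 < p ∧ IsCompleteFor NP (STAR p)) =>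
      (⟨hp.1.le, hp.2.1⟩ : 1 ≤ p ∧ STAR p ∈ NP)
  refine ⟨fun p hp hn => ⟨star_hard hp hn, star_complete_iff hp hn, fun ha =>
    (star_complete_iff hp hn).2 (cut_algebraic (by linarith) ha)⟩, hc, ?_⟩
  by_contra hcon
  push Not at hcon
  have h1 : Set.Ioo (1 : ℝ) 2 ⊆ {p : ℝ | 1 < p ∧ IsCompleteFor NP (STAR p)} := by
    intro p hp
    refine ⟨hp.1, hcon p hp.1 fun n hn => ?_⟩
    have h2 : (1 : ℝ) < n := hn ▸ hp.1
    have h3 : (n : ℝ) < 2 := hn ▸ hp.2
    have h4 : 1 < n := by exact_mod_cast h2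
    have h5 : n < 2 := by exact_mod_cast h3
    omega
  have h2 : (Set.Ioo (1 : ℝ) 2).Countable := hc.mono h1
  have h3 := h2.le_aleph0
  rw [Cardinal.mk_Ioo_real (by norm_num)] at h3
  exact absurd h3 (not_le.2 Cardinal.aleph0_lt_continuum)

end Pool.Agent.Results.MP_77e9aa_lc.StarHardness
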